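import Pool.Agent.Y23.G.Gs
import Pool.Agent.Y23.G.Dm
import Pool.Agent.Y23.G.Fw1

/-! # The lower bound for the form in terms of the distance of the zeros from the line -/

set_option autoImplicit false
set_option maxHeartbeats 2000000

open Complex Filter Topology Set MeasureTheory
open scoped ComplexConjugate

namespace Pool.Agent.Y23.G.GQ

/-- the trapezoid: one on `[-a, a]`, zero off `[-a-1, a+1]` -/
noncomputable def trap (a x : ℝ) : ℂ := ((a + 1 : ℝ) : ℂ) * (tent (a + 1) x : ℂ) - (a : ℂ) * (tent a x : ℂ)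

lemma Fa_trap {a : ℝ} (ha : 0 < a) : Fa (a + 1) (trap a) :=
  ((Fa_tent (by linarith : 0 < a + 1)).smul _).sub (((Fa_tent ha).mono (by linarith)).smul _)

lemma trap_one {a x : ℝ} (ha : 0 < a) (hx : |x| ≤ a) : trap a x = 1 := by
  unfold trap tent
  rw [if_pos (by linarith), if_pos hx]
  have h1 : (a : ℂ) ≠ 0 := by exact_mod_cast ha.ne'
  have h2 : ((a : ℂ) + 1) ≠ 0 := by
    have : a + 1 ≠ 0 := by linarith
    exact_mod_cast this
  push_cast
  field_simp
  ring

lemma trap_conj (a x : ℝ) : conj (trap a x) = trap a x := by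
  unfold trap
  rw [map_sub, map_mul, map_mul, conj_ofReal, conj_ofReal, conj_ofReal, conj_ofReal]

lemma TT_trap_sq {a : ℝ} (ha : 0 < a) (w : ℂ) : w ^ 2 * TT (trap a) w =
    cexp (((a + 1 : ℝ) : ℂ) * w) + cexp (-(((a + 1 : ℝ) : ℂ) * w)) - cexp (a * w) - cexp (-(a * w)) := by
  have h1 := TT_tent (by linarith : 0 < a + 1) w
  have h2 := TT_tent ha w
  have h3 : TT (trap a) w = ((a + 1 : ℝ) : ℂ) * TT (fun x => (tent (a + 1) x : ℂ)) w - (a : ℂ) * TT (fun x => (tent a x : ℂ)) w := by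
    have := TT_sub ((Fa_tent (by linarith : 0 < a + 1)).smul (((a + 1 : ℝ) : ℂ))) (((Fa_tent ha).mono (by linarith)).smul (a : ℂ)) w
    rw [TT_smul, TT_smul] at this
    exact this
  rw [h3, mul_sub, mul_left_comm, h1, mul_left_comm (w ^ 2), h2]
  have h4 : (a : ℂ) ≠ 0 := by exact_mod_cast ha.ne'
  have h5 : ((a + 1 : ℝ) : ℂ) ≠ 0 := by
    have : a + 1 ≠ 0 := by linarith
    exact_mod_cast this
  rw [mul_div_cancel₀ _ h5, mul_div_cancel₀ _ h4]
  ring

lemma trap_le {a : ℝ} (ha : 0 < a) (x : ℝ) : ‖trap a x‖ ≤ 2 * (a + 1) := by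
  unfold trap
  refine (norm_sub_le _ _).trans ?_
  rw [norm_mul, norm_mul, Complex.norm_real, Complex.norm_real, Complex.norm_real, Complex.norm_real,
    Real.norm_eq_abs, Real.norm_eq_abs, Real.norm_eq_abs, Real.norm_eq_abs, abs_of_pos ha, abs_of_pos (by linarith : 0 < a + 1),
    abs_of_nonneg (tent_nonneg ha x), abs_of_nonneg (tent_nonneg (by linarith : 0 < a + 1) x)]
  have h1 := tent_le ha x
  have h2 := tent_le (by linarith : 0 < a + 1) x
  have h3 := tent_nonneg ha x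
  have h4 := tent_nonneg (by linarith : 0 < a + 1) x
  nlinarith

/-- the kernel in the strip -/
lemma trap_bound {a δ : ℝ} (ha : 1 ≤ a) (hδ : 0 ≤ δ) {w : ℂ} (hw : |w.re| ≤ δ) :
    ‖TT (trap a) w‖ ≤ (20 * (a + 1) ^ 2 * Real.exp ((a + 1) * δ)) / (1 + w.im ^ 2) := by
  have ha0 : 0 < a := by linarith
  have ha1 : 0 < a + 1 := by linarith
  set E := Real.exp ((a + 1) * δ) with hE
  have hE0 : 0 < E := Real.exp_pos _
  have hx : ∀ x : ℝ, |x| ≤ a + 1 → ‖cexp (w * x)‖ ≤ E := by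
    intro x hx
    rw [Complex.norm_exp]
    refine Real.exp_le_exp.2 ?_
    have e : (w * (x : ℂ)).re = w.re * x := by simp
    rw [e]
    calc w.re * x ≤ |w.re| * |x| := by rw [← abs_mul]; exact le_abs_self _
      _ ≤ δ * (a + 1) := mul_le_mul hw hx (abs_nonneg _) hδ
      _ = _ := by ring
  have h1 : ‖TT (trap a) w‖ ≤ 4 * (a + 1) ^ 2 * E := by
    rw [TT_interval ha1 (Fa_trap ha0)]
    have h2 := intervalIntegral.norm_integral_le_of_norm_le_const (a := -(a + 1)) (b := a + 1)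
      (f := fun x : ℝ => trap a x * cexp (w * x)) (C := 2 * (a + 1) * E) (fun x hx' => by
        rw [uIoc_of_le (by linarith)] at hx'
        rw [norm_mul]
        exact mul_le_mul (trap_le ha0 x) (hx x (abs_le.2 ⟨hx'.1.le, hx'.2⟩)) (norm_nonneg _) (by positivity))
    refine h2.trans (le_of_eq ?_)
    rw [abs_of_pos (by linarith)]
    ring
  have h2 : w.im ^ 2 * ‖TT (trap a) w‖ ≤ 4 * E := by
    have h3 : w.im ^ 2 ≤ ‖w‖ ^ 2 := by
      rw [← Complex.normSq_eq_norm_sq, Complex.normSq_apply]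
      nlinarith [sq_nonneg w.re]
    refine (mul_le_mul_of_nonneg_right h3 (norm_nonneg _)).trans ?_
    rw [← norm_pow, ← norm_mul, TT_trap_sq ha0]
    have k1 := hx (a + 1) (by rw [abs_of_pos ha1])
    have k2 := hx (-(a + 1)) (by rw [abs_neg, abs_of_pos ha1])
    have k3 := hx a (by rw [abs_of_pos ha0]; linarith)
    have k4 := hx (-a) (by rw [abs_neg, abs_of_pos ha0]; linarith)
    have e1 : w * ((a + 1 : ℝ) : ℂ) = ((a + 1 : ℝ) : ℂ) * w := mul_comm _ _
    have e2 : w * ((-(a + 1) : ℝ) : ℂ) = -(((a + 1 : ℝ) : ℂ) * w) := by push_cast; ring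
    have e3 : w * (a : ℂ) = a * w := mul_comm _ _
    have e4 : w * ((-a : ℝ) : ℂ) = -(a * w) := by push_cast; ring
    rw [e1] at k1
    rw [e2] at k2
    rw [e3] at k3
    rw [e4] at k4
    calc _ ≤ ‖cexp (((a + 1 : ℝ) : ℂ) * w)‖ + ‖cexp (-(((a + 1 : ℝ) : ℂ) * w))‖ + ‖cexp (a * w)‖ + ‖cexp (-(a * w))‖ := by
          refine (norm_sub_le _ _).trans (add_le_add_left ?_ _)
          refine (norm_sub_le _ _).trans (add_le_add_left ?_ _)
          exact norm_add_le _ _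
      _ ≤ _ := by linarith
  rw [le_div_iff₀ (by positivity)]
  have h3 : 1 ≤ (a + 1) ^ 2 := by nlinarith
  nlinarith

/-- the reproducing formula -/
lemma reproduce' {a : ℝ} (ha : 0 < a) {f : ℝ → ℂ} (hf : Fa a f) (w : ℂ) :
    ∫ t : ℝ, TT f (t * I) * TT (trap a) (w - t * I) = 2 * Real.pi * TT f w := by
  have hg : Fa (a + 1) (fun x => trap a x * cexp (conj w * x)) := (Fa_trap ha).mul_bdd (by fun_prop)
  have h := parseval hf hg
  have e1 : ∫ x : ℝ, f x * conj (trap a x * cexp (conj w * x)) = TT f w := by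
    unfold TT
    congr 1
    funext x
    by_cases hx : a < |x|
    · rw [hf.2 x hx]; simp
    · rw [not_lt] at hx
      rw [trap_one ha hx, one_mul, ← Complex.exp_conj, map_mul, conj_ofReal, conj_conj]
  rw [e1] at h
  rw [← h]
  congr 1
  funext t
  rw [TT_mul_exp, TT_conj]
  simp only [trap_conj]
  congr 2
  rw [map_add, conj_conj, map_mul, conj_I, conj_ofReal]
  ring

/-- Plancherel-Polya in the strip, with the dependence on `a` -/
lemma pp' {a δ : ℝ} (ha : 1 ≤ a) (hδ : 0 ≤ δ) {f : ℝ → ℂ} (hf : Fa a f) {w : ℂ} (hw : |w.re| ≤ δ) :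
    ‖TT f w‖ ^ 2 ≤ (20 * (a + 1) ^ 2 * Real.exp ((a + 1) * δ)) ^ 2 *
      ∫ t : ℝ, ‖TT f (t * I)‖ ^ 2 * (1 / (1 + (w.im - t) ^ 2)) := by
  have ha0 : 0 < a := by linarith
  set C := 20 * (a + 1) ^ 2 * Real.exp ((a + 1) * δ) with hCd
  have hC : 0 < C := by positivity
  have hK : ∀ w : ℂ, |w.re| ≤ δ → ‖TT (trap a) w‖ ≤ C / (1 + w.im ^ 2) := fun w hw => trap_bound ha hδ hw
  have hF := memLp_TT hf
  have hk := int_kernel w.im
  have hk0 : ∀ t : ℝ, 0 ≤ 1 / (1 + (w.im - t) ^ 2) := fun t => by positivity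
  have hk1 : ∀ t : ℝ, 1 / (1 + (w.im - t) ^ 2) ≤ 1 := fun t => by
    rw [div_le_one (by positivity)]; nlinarith [sq_nonneg (w.im - t)]
  set v : ℝ → ℝ := fun t => Real.sqrt (1 / (1 + (w.im - t) ^ 2)) with hv
  have hvm : AEStronglyMeasurable v volume := by
    have : Continuous v := by
      refine Real.continuous_sqrt.comp (Continuous.div continuous_const (by fun_prop) fun t => ?_)
      positivity
    exact this.aestronglyMeasurable
  have hv2 : ∀ t, v t ^ 2 = 1 / (1 + (w.im - t) ^ 2) := fun t => Real.sq_sqrt (hk0 t)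
  have hvL : MemLp v 2 volume := by
    rw [memLp_two_iff_integrable_sq hvm]
    simp only [hv2]
    exact hk.1
  have hv1 : ∀ t, v t ≤ 1 := fun t => Real.sqrt_le_one.2 (hk1 t)
  have hu : MemLp (fun t : ℝ => ‖TT f (t * I)‖ * v t) 2 volume := by
    refine hF.norm.mono (hF.norm.1.mul hvm) (Eventually.of_forall fun t => ?_)
    rw [norm_mul]
    have : ‖v t‖ ≤ 1 := by
      rw [Real.norm_eq_abs, abs_of_nonneg (Real.sqrt_nonneg _)]; exact hv1 t
    exact mul_le_of_le_one_right (norm_nonneg _) this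
  have h1 : ‖2 * Real.pi * TT f w‖ ≤ ∫ t : ℝ, (‖TT f (t * I)‖ * v t) * (C * v t) := by
    rw [← reproduce' ha0 hf w]
    refine norm_integral_le_of_norm_le (hu.integrable_mul (hvL.const_mul C)) (Eventually.of_forall fun t => ?_)
    rw [norm_mul]
    have h2 := hK (w - t * I) (by simpa using hw)
    have h3 : (w - t * I).im = w.im - t := by simp
    rw [h3] at h2
    have h4 : (‖TT f (t * I)‖ * v t) * (C * v t) = ‖TT f (t * I)‖ * (C / (1 + (w.im - t) ^ 2)) := by
      calc _ = ‖TT f (t * I)‖ * (C * v t ^ 2) := by ring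
        _ = _ := by rw [hv2]; ring
    rw [h4]
    exact mul_le_mul_of_nonneg_left h2 (norm_nonneg _)
  have h2 := cs_int hu (hvL.const_mul C) (fun t => mul_nonneg (norm_nonneg _) (Real.sqrt_nonneg _))
    (fun t => mul_nonneg hC.le (Real.sqrt_nonneg _))
  have e1 : ∫ t : ℝ, (‖TT f (t * I)‖ * v t) ^ 2 =
      ∫ t : ℝ, ‖TT f (t * I)‖ ^ 2 * (1 / (1 + (w.im - t) ^ 2)) := by
    congr 1
    funext t
    rw [mul_pow, hv2]
  have e2 : ∫ t : ℝ, (C * v t) ^ 2 = C ^ 2 * Real.pi := by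
    have : (fun t => (C * v t) ^ 2) = fun t => C ^ 2 * (1 / (1 + (w.im - t) ^ 2)) := by
      funext t
      rw [mul_pow, hv2]
    rw [this, integral_const_mul, hk.2]
  rw [e1, e2] at h2
  set J := ∫ t : ℝ, ‖TT f (t * I)‖ ^ 2 * (1 / (1 + (w.im - t) ^ 2)) with hJ
  have hJ0 : 0 ≤ J := integral_nonneg fun t => mul_nonneg (by positivity) (hk0 t)
  have h3 : ‖2 * Real.pi * TT f w‖ ^ 2 ≤ J * (C ^ 2 * Real.pi) :=
    (pow_le_pow_left₀ (norm_nonneg _) h1 2).trans h2
  have h4 : ‖2 * Real.pi * TT f w‖ ^ 2 = (2 * Real.pi) ^ 2 * ‖TT f w‖ ^ 2 := by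
    rw [norm_mul, mul_pow]
    congr 2
    have : ‖((2 * Real.pi : ℝ) : ℂ)‖ = 2 * Real.pi := by
      rw [Complex.norm_real, Real.norm_eq_abs, abs_of_pos (by positivity)]
    push_cast at this
    exact this
  rw [h4] at h3
  have hpi := Real.pi_gt_three
  have h5 : 0 ≤ C ^ 2 * J := by positivity
  have h6 : Real.pi * ‖TT f w‖ ^ 2 ≤ Real.pi * (C ^ 2 * J) := by
    nlinarith [sq_nonneg ‖TT f w‖, Real.pi_pos, mul_nonneg Real.pi_pos.le (sq_nonneg ‖TT f w‖)]
  exact le_of_mul_le_mul_left h6 Real.pi_pos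

variable [D : ZD]

/-- the norm on the zeros, with the dependence on `a` -/
lemma SS_le : ∃ K : ℝ, 0 < K ∧ ∀ (a δ : ℝ), 1 ≤ a → 0 ≤ δ → (∀ ρ : Zt, |((ρ : ℂ) - 1 / 2).re| ≤ δ) →
    ∀ f : ℝ → ℂ, Hd a f → SS f ≤ (20 * (a + 1) ^ 2 * Real.exp ((a + 1) * δ)) ^ 2 * K * LL f := by
  classical
  obtain ⟨K, hK, hz⟩ := zsum
  refine ⟨K, hK, fun a δ ha hδ hst f hf => ?_⟩
  set C := (20 * (a + 1) ^ 2 * Real.exp ((a + 1) * δ)) ^ 2 with hCd
  have hC : 0 < C := by positivity
  have key : ∀ S : Finset Zt, ∑ ρ ∈ S, (mu ρ : ℝ) * ‖TT f ((ρ : ℂ) - 1 / 2)‖ ^ 2 ≤ C * K * LL f := by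
    intro S
    have hint : ∀ y : ℝ, Integrable (fun t : ℝ => ‖TT f (t * I)‖ ^ 2 * (1 / (1 + (y - t) ^ 2))) := by
      intro y
      refine (int_TT_sq hf.1).mono' ?_ (Eventually.of_forall fun t => ?_)
      · refine Continuous.aestronglyMeasurable ?_
        refine ((TT_line_cont hf.1).norm.pow 2).mul ?_
        refine continuous_const.div (by fun_prop) fun t => ?_
        positivity
      · have h1 : 1 / (1 + (y - t) ^ 2) ≤ 1 := by
          rw [div_le_one (by positivity)]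
          have := sq_nonneg (y - t)
          linarith
        have h2 : 0 ≤ 1 / (1 + (y - t) ^ 2) := by positivity
        have h3 := sq_nonneg ‖TT f (t * I)‖
        rw [Real.norm_eq_abs, abs_of_nonneg (mul_nonneg h3 h2)]
        nlinarith
    calc ∑ ρ ∈ S, (mu ρ : ℝ) * ‖TT f ((ρ : ℂ) - 1 / 2)‖ ^ 2
        ≤ ∑ ρ ∈ S, (mu ρ : ℝ) * (C * ∫ t : ℝ, ‖TT f (t * I)‖ ^ 2 * (1 / (1 + ((ρ : ℂ).im - t) ^ 2))) := by
          refine Finset.sum_le_sum fun ρ _ => mul_le_mul_of_nonneg_left ?_ (Nat.cast_nonneg _)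
          have h1 := pp' ha hδ hf.1 (w := (ρ : ℂ) - 1 / 2) (hst ρ)
          have e : ((ρ : ℂ) - 1 / 2).im = (ρ : ℂ).im := by simp
          rwa [e] at h1
      _ = C * ∫ t : ℝ, ∑ ρ ∈ S, (mu ρ : ℝ) * (‖TT f (t * I)‖ ^ 2 * (1 / (1 + ((ρ : ℂ).im - t) ^ 2))) := by
          rw [integral_finsetSum _ fun ρ _ => (hint _).const_mul _, Finset.mul_sum]
          refine Finset.sum_congr rfl fun ρ _ => ?_
          rw [integral_const_mul]
          ring
      _ ≤ C * ∫ t : ℝ, K * (Lg t * ‖TT f (t * I)‖ ^ 2) := by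
          refine mul_le_mul_of_nonneg_left ?_ hC.le
          refine integral_mono (integrable_finsetSum _ fun ρ _ => (hint _).const_mul _) (hf.2.const_mul K) fun t => ?_
          simp only
          have h1 := hz t (S.map (Function.Embedding.subtype _)) (by
            intro s hs
            rw [Finset.mem_map] at hs
            obtain ⟨u, _, rfl⟩ := hs
            exact u.2)
          rw [Finset.sum_map] at h1
          have e : ∑ ρ ∈ S, (mu ρ : ℝ) * (‖TT f (t * I)‖ ^ 2 * (1 / (1 + ((ρ : ℂ).im - t) ^ 2))) =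
              ‖TT f (t * I)‖ ^ 2 * ∑ ρ ∈ S, (mu ρ : ℝ) * (1 / (1 + ((ρ : ℂ).im - t) ^ 2)) := by
            rw [Finset.mul_sum]
            exact Finset.sum_congr rfl fun ρ _ => by ring
          rw [e]
          have h2 : ‖TT f (t * I)‖ ^ 2 * ∑ ρ ∈ S, (mu ρ : ℝ) * (1 / (1 + ((ρ : ℂ).im - t) ^ 2)) ≤
              ‖TT f (t * I)‖ ^ 2 * (K * Lg t) := mul_le_mul_of_nonneg_left h1 (sq_nonneg _)
          linarith
      _ = C * K * LL f := by
          rw [integral_const_mul]; unfold LL; ring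
  have hs : Dom f := summable_of_sum_le (fun ρ => by positivity) key
  exact hs.tsum_le_of_sum_le key

variable [EC : ZC]

/-- the lower bound -/
theorem low {δ c : ℝ} (hδ : 0 ≤ δ) (hst : ∀ ρ : Zt, |((ρ : ℂ) - 1 / 2).re| ≤ δ) (hc : 2 * δ < c) :
    ∃ A : ℝ, ∀ a : ℝ, A ≤ a → ∀ f : ℝ → ℂ, Hd a f → -(Real.exp (c * a) * LL f) ≤ QQ f := by
  obtain ⟨K, hK, h⟩ := SS_le
  set ε := c - 2 * δ with hε
  have hε0 : 0 < ε := by linarith
  have hlim : Tendsto (fun a : ℝ => (a + 1) ^ 4 * Real.exp (-(ε * (a + 1)))) atTop (𝓝 0) := by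
    have h1 := Real.tendsto_pow_mul_exp_neg_atTop_nhds_zero 4
    have h2 : Tendsto (fun a : ℝ => ε * (a + 1)) atTop atTop :=
      (tendsto_atTop_add_const_right _ 1 tendsto_id).const_mul_atTop hε0
    have h3 := (h1.comp h2).const_mul ((1 / ε) ^ 4)
    rw [mul_zero] at h3
    refine h3.congr fun a => ?_
    simp only [Function.comp]
    field_simp
  have hsmall : 0 < Real.exp (-c) / (400 * K) := by positivity
  obtain ⟨A, hA⟩ := eventually_atTop.1 (hlim.eventually (gt_mem_nhds hsmall))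
  refine ⟨max A 1, fun a ha f hf => ?_⟩
  have ha1 : 1 ≤ a := (le_max_right _ _).trans ha
  have haA : A ≤ a := (le_max_left _ _).trans ha
  have h1 := h a δ ha1 hδ hst f hf
  have h2 := (neg_le_of_abs_le (QQ_abs_le (hf.dom (by linarith))))
  have h3 := hA a haA
  have h4 : (20 * (a + 1) ^ 2 * Real.exp ((a + 1) * δ)) ^ 2 * K ≤ Real.exp (c * a) := by
    have e1 : (20 * (a + 1) ^ 2 * Real.exp ((a + 1) * δ)) ^ 2 = 400 * (a + 1) ^ 4 * Real.exp (2 * ((a + 1) * δ)) := by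
      rw [mul_pow, mul_pow, ← Real.exp_nat_mul]
      push_cast
      ring
    have e2 : Real.exp (2 * ((a + 1) * δ)) = Real.exp (c * a) * Real.exp c * Real.exp (-(ε * (a + 1))) := by
      rw [← Real.exp_add, ← Real.exp_add]
      congr 1
      rw [hε]
      ring
    rw [e1, e2]
    rw [lt_div_iff₀ (by positivity)] at h3
    have e3 : Real.exp c * Real.exp (-c) = 1 := by rw [← Real.exp_add, add_neg_cancel, Real.exp_zero]
    calc 400 * (a + 1) ^ 4 * (Real.exp (c * a) * Real.exp c * Real.exp (-(ε * (a + 1)))) * K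
        = Real.exp (c * a) * (Real.exp c * ((a + 1) ^ 4 * Real.exp (-(ε * (a + 1))) * (400 * K))) := by ring
      _ ≤ Real.exp (c * a) * (Real.exp c * Real.exp (-c)) := by
          gcongr
      _ = _ := by rw [e3, mul_one]
  have h5 : SS f ≤ Real.exp (c * a) * LL f := h1.trans (mul_le_mul_of_nonneg_right h4 (LL_nonneg f))
  linarith

end Pool.Agent.Y23.G.GQ
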