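import Pool.Agent.Y23.G.Gs
import Pool.Agent.Y23.G.An6
import Pool.Agent.Y23.G.Ts2
import Pool.Agent.Y23.G.Fw1

/-! # Translates of a fixed function -/

set_option autoImplicit false
set_option maxHeartbeats 2000000

open Complex Filter Topology Set MeasureTheory
open scoped ComplexConjugate

namespace Pool.Agent.Y23.G.GQ

variable [L : LFun]

/-- the fixed function -/
noncomputable abbrev φ : ℝ → ℂ := kap 1

lemma Fa_φ : Fa 2 φ := by
  have := Fa_kap (a := 1) one_pos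
  norm_num at this
  exact this

lemma dom_φ : Dom φ := by
  obtain ⟨C, hC, h⟩ := kap_bound (a := 1) one_pos
  refine Summable.of_nonneg_of_le (fun ρ => by positivity) (fun ρ => ?_) ((zsummable 0).mul_left (C ^ 2))
  have h1 := h ((ρ : ℂ) - 1 / 2) (half_re ρ)
  have e : ((ρ : ℂ) - 1 / 2).im = (ρ : ℂ).im := by simp
  rw [e] at h1
  have h2 : ‖TT φ ((ρ : ℂ) - 1 / 2)‖ ^ 2 ≤ C ^ 2 * (1 / (1 + (ρ : ℂ).im ^ 2)) := by
    refine (pow_le_pow_left₀ (norm_nonneg _) h1 2).trans ?_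
    rw [div_pow, mul_one_div]
    refine div_le_div_of_nonneg_left (by positivity) (by positivity) ?_
    nlinarith [sq_nonneg (ρ : ℂ).im]
  rw [sub_zero]
  calc (mu ρ : ℝ) * ‖TT φ ((ρ : ℂ) - 1 / 2)‖ ^ 2 ≤ (mu ρ : ℝ) * (C ^ 2 * (1 / (1 + (ρ : ℂ).im ^ 2))) :=
        mul_le_mul_of_nonneg_left h2 (Nat.cast_nonneg _)
    _ = _ := by ring

lemma Hd_φ : Hd 2 φ := (Hd_iff two_pos φ).2 ⟨Fa_φ, dom_φ⟩

/-- the weight of a zero -/
noncomputable def gw (ρ : Zt) : ℂ := (mu ρ : ℂ) * GG φ φ ((ρ : ℂ) - 1 / 2)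

lemma gw_summable : Summable fun ρ : Zt => ‖gw ρ‖ := by
  have h := dom_φ
  refine Summable.of_nonneg_of_le (fun _ => norm_nonneg _) (fun ρ => ?_) (h.add h.refl)
  unfold gw GG
  rw [norm_mul, Complex.norm_natCast, norm_mul, RCLike.norm_conj]
  have h1 : ‖TT φ ((ρ : ℂ) - 1 / 2)‖ * ‖TT φ (-conj ((ρ : ℂ) - 1 / 2))‖ ≤
      ‖TT φ ((ρ : ℂ) - 1 / 2)‖ ^ 2 + ‖TT φ (-conj ((ρ : ℂ) - 1 / 2))‖ ^ 2 := by
    nlinarith [sq_nonneg (‖TT φ ((ρ : ℂ) - 1 / 2)‖ - ‖TT φ (-conj ((ρ : ℂ) - 1 / 2))‖),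
      sq_nonneg ‖TT φ ((ρ : ℂ) - 1 / 2)‖, sq_nonneg ‖TT φ (-conj ((ρ : ℂ) - 1 / 2))‖]
  rw [← mul_add]
  exact mul_le_mul_of_nonneg_left h1 (Nat.cast_nonneg _)

lemma gw_ne {ρ : Zt} (hρ : ((ρ : ℂ) - 1 / 2).re ≠ 0) : gw ρ ≠ 0 := by
  have key : ∀ w : ℂ, w.re ≠ 0 → TT φ w ≠ 0 := by
    intro w hw h
    have h1 := TT_kap_sq (a := 1) one_pos w
    rw [h, mul_zero] at h1
    have h2 : cexp (2 * w) + cexp (-(2 * w)) - cexp w - cexp (-w) = 0 := by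
      have := h1.symm
      simpa using this
    have h3 : (cexp (3 / 2 * w) - cexp (-(3 / 2 * w))) * (cexp (1 / 2 * w) - cexp (-(1 / 2 * w))) = 0 := by
      rw [← h2, sub_mul, mul_sub, mul_sub, ← Complex.exp_add, ← Complex.exp_add, ← Complex.exp_add, ← Complex.exp_add]
      ring_nf
    have h4 : ∀ r : ℝ, r ≠ 0 → cexp (r * w) - cexp (-(r * w)) ≠ 0 := by
      intro r hr h5
      have h6 := congrArg norm (sub_eq_zero.1 h5)
      rw [Complex.norm_exp, Complex.norm_exp, Real.exp_eq_exp, neg_re, Complex.re_ofReal_mul] at h6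
      have h7 : r * w.re = 0 := by linarith
      rcases mul_eq_zero.1 h7 with h8 | h8
      · exact hr h8
      · exact hw h8
    rcases mul_eq_zero.1 h3 with h5 | h5
    · refine h4 (3 / 2) (by norm_num) ?_
      push_cast
      exact h5
    · refine h4 (1 / 2) (by norm_num) ?_
      push_cast
      exact h5
  unfold gw GG
  refine mul_ne_zero ?_ (mul_ne_zero (key _ hρ) ?_)
  · have h1 : 1 ≤ mu (ρ : ℂ) := ZD.mpos _ ρ.2
    exact_mod_cast (by omega : mu (ρ : ℂ) ≠ 0)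
  · rw [Ne, map_eq_zero]
    refine key _ ?_
    have e : (-conj ((ρ : ℂ) - 1 / 2)).re = -((ρ : ℂ) - 1 / 2).re := by
      rw [neg_re, Complex.conj_re]
    rw [e]
    exact neg_ne_zero.2 hρ

/-- the sum over the zeros -/
noncomputable def SB (b : ℝ) : ℂ := ∑' ρ : Zt, gw ρ * cexp (2 * b * ((ρ : ℂ) - 1 / 2))

lemma norm_ex (b : ℝ) (ρ : Zt) : ‖cexp (2 * b * ((ρ : ℂ) - 1 / 2))‖ ≤ Real.exp (2 * |b|) := by
  rw [Complex.norm_exp]
  refine Real.exp_le_exp.2 ?_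
  have e : (2 * (b : ℂ) * ((ρ : ℂ) - 1 / 2)).re = 2 * (b * ((ρ : ℂ) - 1 / 2).re) := by
    rw [mul_assoc, show (2 : ℂ) = ((2 : ℝ) : ℂ) by norm_num, Complex.re_ofReal_mul, Complex.re_ofReal_mul]
  rw [e]
  have h1 := half_re ρ
  have h2 : b * ((ρ : ℂ) - 1 / 2).re ≤ |b| * |((ρ : ℂ) - 1 / 2).re| := by
    rw [← abs_mul]
    exact le_abs_self _
  nlinarith [abs_nonneg b]

lemma SB_summable (b : ℝ) : Summable fun ρ : Zt => gw ρ * cexp (2 * b * ((ρ : ℂ) - 1 / 2)) := by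
  refine Summable.of_norm (Summable.of_nonneg_of_le (fun _ => norm_nonneg _) (fun ρ => ?_)
    (gw_summable.mul_right (Real.exp (2 * |b|))))
  rw [norm_mul]
  exact mul_le_mul_of_nonneg_left (norm_ex b ρ) (norm_nonneg _)

lemma gw_rf (ρ : Zt) : gw (rfZ ρ) = conj (gw ρ) := by
  unfold gw
  rw [mu_rfZ, rfZ_sub, map_mul, Complex.conj_natCast]
  congr 1
  unfold GG
  rw [map_mul, Complex.conj_conj, map_neg, Complex.conj_conj, neg_neg, mul_comm]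

lemma SB_neg (b : ℝ) : SB (-b) = conj (SB b) := by
  unfold SB
  rw [Complex.conj_tsum, ← rfZ.tsum_eq]
  refine tsum_congr fun ρ => ?_
  rw [gw_rf, map_mul, rfZ_sub, ← Complex.exp_conj]
  congr 2
  simp only [map_mul, map_sub, Complex.conj_ofReal, map_ofNat]
  push_cast
  ring

/-- the combination of two translates -/
noncomputable def fb (u : ℂ) (b : ℝ) (x : ℝ) : ℂ := u * φ (x + (-b)) + φ (x + b)

lemma Fa_fb (u : ℂ) {b : ℝ} (hb : 0 ≤ b) : Fa (b + 2) (fb u b) := by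
  have h1 : Fa (b + 2) (fun x => φ (x + (-b))) := Fa_shift (by rw [abs_neg, abs_of_nonneg hb]; linarith) Fa_φ
  have h2 : Fa (b + 2) (fun x => φ (x + b)) := Fa_shift (by rw [abs_of_nonneg hb]; linarith) Fa_φ
  exact (h1.smul u).add h2

lemma Hd_sh {b η : ℝ} (h : 2 + |η| ≤ b) : Hd b (fun x => φ (x + η)) ∧ LL (fun x => φ (x + η)) = LL φ := by
  have e : (fun v : ℝ => Lg v * ‖TT (fun x => φ (x + η)) (v * I)‖ ^ 2) = fun v : ℝ => Lg v * ‖TT φ (v * I)‖ ^ 2 := by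
    funext v
    rw [TT_shift, norm_mul]
    have : ‖cexp (-((v : ℂ) * I * η))‖ = 1 := by
      rw [Complex.norm_exp]
      simp
    rw [this, one_mul]
  refine ⟨⟨Fa_shift h Fa_φ, ?_⟩, ?_⟩
  · rw [e]
    exact Hd_φ.2
  · unfold LL
    rw [e]

lemma Hd_fb (u : ℂ) {b : ℝ} (hb : 0 ≤ b) : Hd (b + 2) (fb u b) :=
  ((Hd_sh (b := b + 2) (η := -b) (by rw [abs_neg, abs_of_nonneg hb]; linarith)).1.smul u).add
    (Hd_sh (b := b + 2) (η := b) (by rw [abs_of_nonneg hb]; linarith)).1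

lemma LL_fb {u : ℂ} (hu : ‖u‖ = 1) {b : ℝ} (hb : 0 ≤ b) : LL (fb u b) ≤ 4 * LL φ := by
  obtain ⟨h1, h2⟩ := Hd_sh (b := b + 2) (η := -b) (by rw [abs_neg, abs_of_nonneg hb]; linarith)
  obtain ⟨h3, h4⟩ := Hd_sh (b := b + 2) (η := b) (by rw [abs_of_nonneg hb]; linarith)
  have h5 := LL_add_le (h1.smul u) h3
  rw [LL_smul, hu, h2, h4] at h5
  have e : LL (fb u b) = LL (fun x => u * φ (x + (-b)) + φ (x + b)) := rfl
  rw [e]
  linarith

lemma TT_fb (u : ℂ) {b : ℝ} (hb : 0 ≤ b) (w : ℂ) : TT (fb u b) w = (u * cexp (b * w) + cexp (-(b * w))) * TT φ w := by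
  have h1 : Fa (b + 2) (fun x => φ (x + (-b))) := Fa_shift (by rw [abs_neg, abs_of_nonneg hb]; linarith) Fa_φ
  have h2 : Fa (b + 2) (fun x => φ (x + b)) := Fa_shift (by rw [abs_of_nonneg hb]; linarith) Fa_φ
  have e := TT_add (h1.smul u) h2 w
  rw [TT_smul, TT_shift, TT_shift] at e
  show TT (fun x => u * φ (x + (-b)) + φ (x + b)) w = _
  rw [e]
  have e1 : -(w * ((-b : ℝ) : ℂ)) = b * w := by push_cast; ring
  have e2 : -(w * (b : ℂ)) = -(b * w) := by ring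
  rw [e1, e2]
  ring

lemma GG_fb {u : ℂ} (hu : ‖u‖ = 1) {b : ℝ} (hb : 0 ≤ b) (w : ℂ) : GG (fb u b) (fb u b) w =
    (2 + u * cexp (2 * b * w) + conj u * cexp (2 * ((-b : ℝ) : ℂ) * w)) * GG φ φ w := by
  have hu2 : u * conj u = 1 := by
    rw [Complex.mul_conj, Complex.normSq_eq_norm_sq, hu]
    norm_num
  unfold GG
  rw [TT_fb u hb, TT_fb u hb, map_mul, map_add, map_mul, ← Complex.exp_conj, ← Complex.exp_conj]
  have e1 : conj ((b : ℂ) * -conj w) = -(b * w) := by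
    rw [map_mul, Complex.conj_ofReal, map_neg, Complex.conj_conj]; ring
  have e2 : conj (-((b : ℂ) * -conj w)) = b * w := by
    rw [map_neg, e1, neg_neg]
  rw [e1, e2]
  have e3 : cexp (2 * b * w) = cexp (b * w) * cexp (b * w) := by rw [← Complex.exp_add]; ring_nf
  have e4 : cexp (2 * ((-b : ℝ) : ℂ) * w) = cexp (-(b * w)) * cexp (-(b * w)) := by
    rw [← Complex.exp_add]; push_cast; ring_nf
  have e5 : cexp (b * w) * cexp (-(b * w)) = 1 := by rw [← Complex.exp_add, add_neg_cancel, Complex.exp_zero]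
  rw [e3, e4]
  linear_combination (TT φ w * conj (TT φ (-conj w))) * ((u * conj u + 1) * e5 + hu2)

lemma QQ_eq_re {f : ℝ → ℂ} (hf : Dom f) : QQ f = (∑' ρ : Zt, (mu ρ : ℂ) * GG f f ((ρ : ℂ) - 1 / 2)).re := by
  have hs : Summable fun ρ : Zt => (mu ρ : ℂ) * GG f f ((ρ : ℂ) - 1 / 2) := by
    refine Summable.of_norm (Summable.of_nonneg_of_le (fun _ => norm_nonneg _) (fun ρ => ?_) (hf.add hf.refl))
    unfold GG
    rw [norm_mul, Complex.norm_natCast, norm_mul, RCLike.norm_conj]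
    have h1 : ‖TT f ((ρ : ℂ) - 1 / 2)‖ * ‖TT f (-conj ((ρ : ℂ) - 1 / 2))‖ ≤
        ‖TT f ((ρ : ℂ) - 1 / 2)‖ ^ 2 + ‖TT f (-conj ((ρ : ℂ) - 1 / 2))‖ ^ 2 := by
      nlinarith [sq_nonneg (‖TT f ((ρ : ℂ) - 1 / 2)‖ - ‖TT f (-conj ((ρ : ℂ) - 1 / 2))‖),
        sq_nonneg ‖TT f ((ρ : ℂ) - 1 / 2)‖, sq_nonneg ‖TT f (-conj ((ρ : ℂ) - 1 / 2))‖]
    rw [← mul_add]
    exact mul_le_mul_of_nonneg_left h1 (Nat.cast_nonneg _)
  rw [Complex.re_tsum hs]
  unfold QQ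
  refine tsum_congr fun ρ => ?_
  rw [← Complex.ofReal_natCast, Complex.re_ofReal_mul]

lemma QQ_fb {u : ℂ} (hu : ‖u‖ = 1) {b : ℝ} (hb : 0 ≤ b) : QQ (fb u b) = 2 * QQ φ + 2 * (u * SB b).re := by
  have hd : Dom (fb u b) := (Hd_fb u hb).dom (by linarith)
  rw [QQ_eq_re hd, QQ_eq_re dom_φ]
  have e1 : ∀ ρ : Zt, (mu ρ : ℂ) * GG (fb u b) (fb u b) ((ρ : ℂ) - 1 / 2) =
      2 * gw ρ + (u * (gw ρ * cexp (2 * b * ((ρ : ℂ) - 1 / 2))) +
        conj u * (gw ρ * cexp (2 * ((-b : ℝ) : ℂ) * ((ρ : ℂ) - 1 / 2)))) := by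
    intro ρ
    rw [GG_fb hu hb]
    unfold gw
    ring
  simp only [e1]
  have s1 : Summable fun ρ : Zt => 2 * gw ρ := gw_summable.of_norm.mul_left 2
  have s2 := (SB_summable b).mul_left u
  have s3 := (SB_summable (-b)).mul_left (conj u)
  rw [s1.tsum_add (s2.add s3), s2.tsum_add s3, tsum_mul_left, tsum_mul_left, tsum_mul_left]
  have e2 : (∑' ρ : Zt, gw ρ * cexp (2 * ((-b : ℝ) : ℂ) * ((ρ : ℂ) - 1 / 2))) = conj (SB b) := SB_neg b
  rw [e2]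
  have e3 : (∑' ρ : Zt, gw ρ * cexp (2 * (b : ℂ) * ((ρ : ℂ) - 1 / 2))) = SB b := rfl
  rw [e3]
  have e4 : conj u * conj (SB b) = conj (u * SB b) := by rw [map_mul]
  rw [e4, Complex.add_re, Complex.add_re, Complex.conj_re]
  have e5 : (2 * ∑' ρ : Zt, gw ρ).re = 2 * (∑' ρ : Zt, (mu ρ : ℂ) * GG φ φ ((ρ : ℂ) - 1 / 2)).re := by
    rw [show (2 : ℂ) = ((2 : ℝ) : ℂ) by norm_num, Complex.re_ofReal_mul]
    rfl
  rw [e5]
  ring

/-- a lower bound for the form bounds the sum -/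
theorem SB_bound {a E : ℝ} (h : ∀ f : ℝ → ℂ, Hd a f → -(E * LL f) ≤ QQ f) (hE : 0 ≤ E) {b : ℝ} (hb : 0 ≤ b)
    (hba : b + 2 ≤ a) : ‖SB b‖ ≤ |QQ φ| + 2 * E * LL φ := by
  have h0 := LL_nonneg φ
  by_cases hS : SB b = 0
  · rw [hS, norm_zero]
    positivity
  have hn : 0 < ‖SB b‖ := norm_pos_iff.2 hS
  set u : ℂ := -(conj (SB b) / ‖SB b‖) with hu
  have hu1 : ‖u‖ = 1 := by
    rw [hu, norm_neg, norm_div, RCLike.norm_conj, Complex.norm_real, norm_norm, div_self hn.ne']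
  have hHd : Hd a (fb u b) := ⟨(Hd_fb u hb).1.mono hba, (Hd_fb u hb).2⟩
  have h1 := h _ hHd
  rw [QQ_fb hu1 hb] at h1
  have e1 : (u * SB b).re = -‖SB b‖ := by
    have e2 : u * SB b = ((-‖SB b‖ : ℝ) : ℂ) := by
      rw [hu, neg_mul, div_mul_eq_mul_div, mul_comm (conj (SB b)), Complex.mul_conj, Complex.normSq_eq_norm_sq]
      have h2 : ((‖SB b‖ : ℝ) : ℂ) ≠ 0 := by exact_mod_cast hn.ne'
      push_cast
      field_simp
    rw [e2, Complex.ofReal_re]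
  rw [e1] at h1
  have h2 := mul_le_mul_of_nonneg_left (LL_fb hu1 hb) hE
  have h3 := le_abs_self (QQ φ)
  nlinarith

end Pool.Agent.Y23.G.GQ
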