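import Pool.Agent.Y23.GQ.Up1

/-! # The three lines argument -/

set_option autoImplicit false
set_option maxHeartbeats 2000000

open Complex Filter Topology Set MeasureTheory
open scoped ComplexConjugate

namespace Pool.Agent.Y23.G.GQ

variable [L : LFun]

/-- data: an entire function with a simple zero at `w0`, the other zeros of `X`, bounded in strips -/
structure HF (w0 : ℂ) (H : ℂ → ℂ) : Prop where
  diff : Differentiable ℂ H
  bdd : ∀ R : ℝ, ∃ C : ℝ, 0 ≤ C ∧ ∀ w : ℂ, |w.re| ≤ R → ‖H w‖ ≤ C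
  zero : ∀ w : ℂ, L.X (1 / 2 + w) = 0 → H w = 0
  der : deriv H w0 ≠ 0

lemma exists_HF {w0 : ℂ} (h0 : L.X (1 / 2 + w0) = 0) : ∃ H : ℂ → ℂ, HF w0 H := by
  obtain ⟨A, hA, hX⟩ := X_all (L := L)
  obtain ⟨H, K, h1, h2, h3, h4, h5⟩ := simple_fun hA hX h0
  refine ⟨H, h1, fun R => ?_, h4, h5⟩
  have hc : ContinuousOn (fun σ : ℝ => Ex A σ) (Icc 0 |R|) := by
    unfold Ex
    refine ContinuousOn.add (ContinuousOn.add continuousOn_const (ContinuousOn.mul continuousOn_const ?_)) ?_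
    · refine ContinuousOn.log (by fun_prop) fun x hx => ?_
      have := hx.1
      linarith
    · have e : (fun σ : ℝ => (L.m : ℝ) / 2 * (σ * (Real.log σ - kp))) =
          fun σ : ℝ => (L.m : ℝ) / 2 * (σ * Real.log σ - σ * kp) := by funext σ; ring
      rw [e]
      exact (Real.continuous_mul_log.sub (by fun_prop)).const_mul _ |>.continuousOn
  obtain ⟨M, hM⟩ := isCompact_Icc.exists_bound_of_continuousOn hc
  refine ⟨K * Real.exp M, by positivity, fun w hw => ?_⟩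
  have e1 := hM |w.re| ⟨abs_nonneg _, hw.trans (le_abs_self R)⟩
  rw [Real.norm_eq_abs] at e1
  have e2 : Ex A |w.re| ≤ M := (le_abs_self _).trans e1
  refine (h3 w).trans ?_
  rw [div_le_iff₀ (by positivity)]
  have e3 : K * Real.exp (Ex A |w.re|) ≤ K * Real.exp M :=
    mul_le_mul_of_nonneg_left (Real.exp_le_exp.2 e2) h2.le
  have e4 : 0 ≤ K * Real.exp M * w.im ^ 2 := by positivity
  nlinarith

variable {w0 : ℂ} {H : ℂ → ℂ}

/-- the zero of `X` of index `ρ`, centred -/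
noncomputable abbrev ct (ρ : Zt) : ℂ := (ρ : ℂ) - 1 / 2

lemma HF.zt (h : HF w0 H) (ρ : Zt) : H (ct ρ) = 0 := by
  refine h.zero _ ?_
  have h1 : L.X (ρ : ℂ) = 0 := ρ.2
  rw [show (1 / 2 : ℂ) + ct ρ = ρ by unfold ct; ring]
  exact h1

/-- the quotient -/
noncomputable def qr (H : ℂ → ℂ) (ρ : Zt) (z : ℂ) : ℂ := dslope H (ct ρ) z

lemma qr_diff (h : HF w0 H) (ρ : Zt) : Differentiable ℂ (qr H ρ) := by
  intro z
  have h1 := (Complex.differentiableOn_dslope (c := ct ρ) (f := H) (s := univ) univ_mem).2 h.diff.differentiableOn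
  exact (h1 z (mem_univ _)).differentiableAt univ_mem

lemma qr_eq (h : HF w0 H) (ρ : Zt) {z : ℂ} (hz : z ≠ ct ρ) : qr H ρ z = H z / (z - ct ρ) := by
  unfold qr
  rw [dslope_of_ne _ hz, slope_def_field, h.zt ρ, sub_zero]

lemma qr_bound (h : HF w0 H) (R : ℝ) : ∃ C : ℝ, 0 ≤ C ∧ ∀ (ρ : Zt) (z : ℂ), |z.re| ≤ R → ‖qr H ρ z‖ ≤ C := by
  obtain ⟨C, hC, hb⟩ := h.bdd (R + 2)
  refine ⟨C, hC, fun ρ z hz => ?_⟩
  have key : ∀ v : ℂ, |v.re| ≤ R + 2 → 1 ≤ ‖v - ct ρ‖ → ‖qr H ρ v‖ ≤ C := by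
    intro v hv h1
    have hne : v ≠ ct ρ := by
      rintro rfl
      rw [sub_self, norm_zero] at h1
      linarith
    rw [qr_eq h ρ hne, norm_div]
    exact (div_le_self (norm_nonneg _) h1).trans (hb v hv)
  by_cases h1 : 1 ≤ ‖z - ct ρ‖
  · exact key z (by linarith) h1
  · push Not at h1
    have hball : z ∈ Metric.ball (ct ρ) 1 := by rwa [Metric.mem_ball, dist_eq_norm]
    refine Complex.norm_le_of_forall_mem_frontier_norm_le (U := Metric.ball (ct ρ) 1) Metric.isBounded_ball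
      ((qr_diff h ρ).diffContOnCl) (fun v hv => ?_) (subset_closure hball)
    rw [frontier_ball _ one_ne_zero, mem_sphere_iff_norm] at hv
    refine key v ?_ hv.ge
    have h2 : |v.re - z.re| ≤ ‖v - z‖ := by
      rw [← Complex.sub_re]
      exact Complex.abs_re_le_norm _
    have h3 : ‖v - z‖ ≤ ‖v - ct ρ‖ + ‖z - ct ρ‖ := by
      have := norm_sub_le (v - ct ρ) (z - ct ρ)
      rwa [sub_sub_sub_cancel_right] at this
    have h4 : |v.re| ≤ |z.re| + |v.re - z.re| := by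
      have := abs_add_le z.re (v.re - z.re)
      rwa [add_sub_cancel] at this
    linarith

/-- the term -/
noncomputable def jt (H : ℂ → ℂ) (B : ℝ) (ρ : Zt) (z : ℂ) : ℂ := gw ρ * (qr H ρ z * cexp (2 * B * (ct ρ - z)))

/-- the function of the three lines argument -/
noncomputable def JB (H : ℂ → ℂ) (B : ℝ) (z : ℂ) : ℂ := ∑' ρ : Zt, jt H B ρ z

lemma ex_norm (B : ℝ) (ρ : Zt) (z : ℂ) : ‖cexp (2 * B * (ct ρ - z))‖ = Real.exp (2 * B * ((ct ρ).re - z.re)) := by
  rw [Complex.norm_exp]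
  congr 1
  rw [mul_assoc, show (2 : ℂ) = ((2 : ℝ) : ℂ) by norm_num, Complex.re_ofReal_mul, Complex.re_ofReal_mul, Complex.sub_re]
  ring

lemma jt_le {C : ℝ} {B : ℝ} (hB : 0 ≤ B) {ρ : Zt} {z : ℂ} (hq : ‖qr H ρ z‖ ≤ C) (hC : 0 ≤ C) :
    ‖jt H B ρ z‖ ≤ ‖gw ρ‖ * (C * Real.exp (2 * B * (1 - z.re))) := by
  unfold jt
  rw [norm_mul, norm_mul, ex_norm]
  refine mul_le_mul_of_nonneg_left (mul_le_mul hq (Real.exp_le_exp.2 ?_) (Real.exp_nonneg _) hC) (norm_nonneg _)
  have h1 := (le_abs_self _).trans (half_re ρ)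
  have h2 : (ct ρ).re - z.re ≤ 1 - z.re := by linarith
  exact mul_le_mul_of_nonneg_left h2 (by positivity)

/-- the total weight -/
noncomputable def G1 : ℝ := ∑' ρ : Zt, ‖gw ρ‖

lemma G1_nonneg : 0 ≤ G1 := tsum_nonneg fun _ => norm_nonneg _

lemma JB_le {C : ℝ} {B : ℝ} (hB : 0 ≤ B) {z : ℂ} (hq : ∀ ρ, ‖qr H ρ z‖ ≤ C) (hC : 0 ≤ C) :
    ‖JB H B z‖ ≤ G1 * (C * Real.exp (2 * B * (1 - z.re))) := by
  have hs := gw_summable.mul_right (C * Real.exp (2 * B * (1 - z.re)))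
  have h1 : Summable fun ρ : Zt => ‖jt H B ρ z‖ :=
    Summable.of_nonneg_of_le (fun _ => norm_nonneg _) (fun ρ => jt_le hB (hq ρ) hC) hs
  unfold JB G1
  rw [← tsum_mul_right]
  exact (norm_tsum_le_tsum_norm h1).trans (h1.tsum_le_tsum (fun ρ => jt_le hB (hq ρ) hC) hs)

lemma JB_diff (h : HF w0 H) {B : ℝ} (hB : 0 ≤ B) (R : ℝ) : DifferentiableOn ℂ (JB H B) {z | |z.re| < R} := by
  obtain ⟨C, hC, hq⟩ := qr_bound h R
  have hs := gw_summable.mul_right (C * Real.exp (2 * B * (1 + R)))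
  refine differentiableOn_tsum_of_summable_norm hs (fun ρ => ?_) ?_ (fun ρ z hz => ?_)
  · unfold jt
    refine (Differentiable.mul (differentiable_const _) ((qr_diff h ρ).mul ?_)).differentiableOn
    fun_prop
  · exact isOpen_lt (by fun_prop) continuous_const
  · have hz' : |z.re| < R := hz
    refine (jt_le hB (hq ρ z hz'.le) hC).trans ?_
    refine mul_le_mul_of_nonneg_left (mul_le_mul_of_nonneg_left (Real.exp_le_exp.2 ?_) hC) (norm_nonneg _)
    have h1 : 1 - z.re ≤ 1 + R := by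
      have := (abs_le.1 hz'.le).1
      linarith
    exact mul_le_mul_of_nonneg_left h1 (by positivity)

/-- the value at the zero -/
lemma JB_zero (h : HF w0 H) (B : ℝ) {ρ0 : Zt} (h0 : ct ρ0 = w0) : JB H B w0 = gw ρ0 * deriv H w0 := by
  unfold JB
  rw [tsum_eq_single ρ0]
  · unfold jt qr
    rw [h0, dslope_same, sub_self, mul_zero, Complex.exp_zero, mul_one]
  · intro ρ hρ
    have hne : w0 ≠ ct ρ := by
      intro h1
      apply hρ
      have h2 : ct ρ = ct ρ0 := by rw [h0, h1]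
      unfold ct at h2
      exact Subtype.ext (sub_left_inj.1 h2)
    unfold jt
    rw [qr_eq h ρ hne]
    have h3 : H w0 = 0 := by rw [← h0]; exact h.zt ρ0
    rw [h3, zero_div, zero_mul, mul_zero]

instance ctZ : Countable Zt := by
  have h1 := (zsummable 0).countable_support
  have h2 : Function.support (fun ρ : Zt => (mu ρ : ℝ) * (1 / (1 + ((ρ : ℂ).im - 0) ^ 2))) = univ := by
    refine eq_univ_of_forall fun ρ => ?_
    rw [Function.mem_support]
    have h3 : 1 ≤ mu (ρ : ℂ) := ZD.mpos _ ρ.2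
    have h4 : (1 : ℝ) ≤ mu (ρ : ℂ) := by exact_mod_cast h3
    positivity
  rw [h2] at h1
  exact countable_univ_iff.1 h1

/-- the integral over the translations -/
lemma int_eq {B : ℝ} (hB : 0 ≤ B) (z : ℂ) :
    HasSum (fun ρ : Zt => gw ρ * ∫ b in (0 : ℝ)..B, cexp (2 * b * (ct ρ - z)))
      (∫ b in (0 : ℝ)..B, SB b * cexp (-(2 * b * z))) := by
  have hF : ∀ ρ : Zt, Continuous (fun b : ℝ => gw ρ * cexp (2 * b * (ct ρ - z))) := fun ρ => by fun_prop
  have hb : ∀ (ρ : Zt) (b : ℝ), b ∈ Icc 0 B → ‖gw ρ * cexp (2 * b * (ct ρ - z))‖ ≤ ‖gw ρ‖ * Real.exp (2 * B * (1 + |z.re|)) := by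
    intro ρ b hb
    rw [norm_mul, ex_norm]
    refine mul_le_mul_of_nonneg_left (Real.exp_le_exp.2 ?_) (norm_nonneg _)
    have h1 := (le_abs_self _).trans (half_re ρ)
    have h2 := (abs_le.1 (le_refl |z.re|)).1
    have h3 : (ct ρ).re - z.re ≤ 1 + |z.re| := by linarith
    have h4 : 0 ≤ 1 + |z.re| := by positivity
    calc 2 * b * ((ct ρ).re - z.re) ≤ 2 * b * (1 + |z.re|) := mul_le_mul_of_nonneg_left h3 (by linarith [hb.1])
      _ ≤ 2 * B * (1 + |z.re|) := mul_le_mul_of_nonneg_right (by linarith [hb.2]) h4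
  have e2 : ∀ b : ℝ, HasSum (fun ρ : Zt => gw ρ * cexp (2 * b * (ct ρ - z))) (SB b * cexp (-(2 * b * z))) := by
    intro b
    have h1 := ((SB_summable b).hasSum).mul_right (cexp (-(2 * b * z)))
    refine h1.congr_fun fun ρ => ?_
    rw [mul_assoc (gw ρ), ← Complex.exp_add]
    congr 2
    unfold ct
    ring
  have h := intervalIntegral.hasSum_integral_of_dominated_convergence (μ := volume) (a := 0) (b := B)
    (F := fun (ρ : Zt) (b : ℝ) => gw ρ * cexp (2 * b * (ct ρ - z))) (f := fun b : ℝ => SB b * cexp (-(2 * b * z)))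
    (fun (ρ : Zt) (_ : ℝ) => ‖gw ρ‖ * Real.exp (2 * B * (1 + |z.re|)))
    (fun ρ => (hF ρ).aestronglyMeasurable)
    (fun ρ => Eventually.of_forall fun b hb' => hb ρ b (by
      rw [Set.uIoc_of_le hB] at hb'
      exact ⟨hb'.1.le, hb'.2⟩))
    (Eventually.of_forall fun b _ => gw_summable.mul_right _)
    intervalIntegrable_const
    (Eventually.of_forall fun b _ => e2 b)
  have e1 : (fun ρ : Zt => ∫ b in (0 : ℝ)..B, gw ρ * cexp (2 * b * (ct ρ - z))) =
      fun ρ : Zt => gw ρ * ∫ b in (0 : ℝ)..B, cexp (2 * b * (ct ρ - z)) := by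
    funext ρ
    exact intervalIntegral.integral_const_mul _ _
  rw [e1] at h
  exact h

omit L in
lemma one_int {w : ℂ} {B : ℝ} : (2 * w) * ∫ b in (0 : ℝ)..B, cexp (2 * b * w) = cexp (2 * B * w) - 1 := by
  by_cases hw : w = 0
  · rw [hw]; simp
  have hw2 : 2 * w ≠ 0 := mul_ne_zero two_ne_zero hw
  have e : (fun b : ℝ => cexp (2 * b * w)) = fun b : ℝ => cexp ((2 * w) * b) := by
    funext b
    congr 1
    ring
  rw [e, integral_exp_mul_complex hw2]
  rw [mul_div_cancel₀ _ hw2]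
  simp only [Complex.ofReal_zero, mul_zero, Complex.exp_zero]
  congr 2
  ring

/-- the bound on the line -/
theorem JB_line (h : HF w0 H) {B M C : ℝ} (hB : 0 ≤ B) (hC : 0 ≤ C) {z : ℂ} (hz : z.re = 0) (hq : ∀ ρ, ‖qr H ρ z‖ ≤ C)
    (hH : ‖H z‖ ≤ C) (hS : ∀ b : ℝ, 0 ≤ b → b ≤ B → ‖SB b‖ ≤ M) :
    ‖JB H B z‖ ≤ C * (G1 + 2 * (B * M)) := by
  have hI := int_eq hB z
  have e1 : ∀ ρ : Zt, jt H B ρ z = gw ρ * qr H ρ z -
      2 * H z * (gw ρ * ∫ b in (0 : ℝ)..B, cexp (2 * b * (ct ρ - z))) := by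
    intro ρ
    unfold jt
    by_cases hne : z = ct ρ
    · have h1 : H z = 0 := by rw [hne]; exact h.zt ρ
      rw [h1, ← hne, sub_self, mul_zero, Complex.exp_zero]
      ring
    · have h1 := one_int (w := ct ρ - z) (B := B)
      have h2 : ct ρ - z ≠ 0 := sub_ne_zero.2 (Ne.symm hne)
      have h3 : z - ct ρ ≠ 0 := sub_ne_zero.2 hne
      have h4 : cexp (2 * B * (ct ρ - z)) = 1 + (2 * (ct ρ - z)) * ∫ b in (0 : ℝ)..B, cexp (2 * b * (ct ρ - z)) := by
        rw [h1]; ring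
      rw [h4, qr_eq h ρ hne, show z - ct ρ = -(ct ρ - z) by ring]
      generalize (∫ b in (0 : ℝ)..B, cexp (2 * b * (ct ρ - z))) = J0
      generalize ct ρ - z = v at h2 ⊢
      field_simp
      ring
  have s1 : Summable fun ρ : Zt => gw ρ * qr H ρ z := by
    refine Summable.of_norm (Summable.of_nonneg_of_le (fun _ => norm_nonneg _) (fun ρ => ?_) (gw_summable.mul_right C))
    rw [norm_mul]
    exact mul_le_mul_of_nonneg_left (hq ρ) (norm_nonneg _)
  have e2 : JB H B z = (∑' ρ : Zt, gw ρ * qr H ρ z) - 2 * H z * ∫ b in (0 : ℝ)..B, SB b * cexp (-(2 * b * z)) := by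
    unfold JB
    simp only [e1]
    rw [s1.tsum_sub (hI.summable.mul_left _), tsum_mul_left, hI.tsum_eq]
  rw [e2]
  have b1 : ‖∑' ρ : Zt, gw ρ * qr H ρ z‖ ≤ C * G1 := by
    have hs : Summable fun ρ : Zt => ‖gw ρ * qr H ρ z‖ :=
      Summable.of_nonneg_of_le (fun _ => norm_nonneg _) (fun ρ => by
        rw [norm_mul]
        exact mul_le_mul_of_nonneg_left (hq ρ) (norm_nonneg _)) (gw_summable.mul_right C)
    refine (norm_tsum_le_tsum_norm hs).trans ?_
    rw [mul_comm C]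
    unfold G1
    rw [← tsum_mul_right]
    exact hs.tsum_le_tsum (fun ρ => by
      rw [norm_mul]
      exact mul_le_mul_of_nonneg_left (hq ρ) (norm_nonneg _)) (gw_summable.mul_right C)
  have b2 : ‖∫ b in (0 : ℝ)..B, SB b * cexp (-(2 * b * z))‖ ≤ M * |B - 0| := by
    refine intervalIntegral.norm_integral_le_of_norm_le_const fun b hb => ?_
    rw [Set.uIoc_of_le hB] at hb
    rw [norm_mul, Complex.norm_exp]
    have e : (-(2 * (b : ℂ) * z)).re = 0 := by
      rw [neg_re, mul_assoc, show (2 : ℂ) = ((2 : ℝ) : ℂ) by norm_num, Complex.re_ofReal_mul, Complex.re_ofReal_mul, hz]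
      simp
    rw [e, Real.exp_zero, mul_one]
    exact hS b hb.1.le hb.2
  rw [sub_zero, abs_of_nonneg hB] at b2
  refine (norm_sub_le _ _).trans ?_
  rw [norm_mul, norm_mul, Complex.norm_ofNat]
  have hM : 0 ≤ M * B := (norm_nonneg _).trans b2
  have b3 : 2 * ‖H z‖ * ‖∫ b in (0 : ℝ)..B, SB b * cexp (-(2 * b * z))‖ ≤ 2 * C * (M * B) :=
    mul_le_mul (by linarith) b2 (norm_nonneg _) (by positivity)
  calc _ ≤ C * G1 + 2 * C * (M * B) := add_le_add b1 b3
    _ = _ := by ring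

end Pool.Agent.Y23.G.GQ
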