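import Pool.Agent.Y23.GQ.Up2

/-! # A zero off the line makes the form exponentially negative -/

set_option autoImplicit false
set_option maxHeartbeats 2000000

open Complex Filter Topology Set MeasureTheory
open scoped ComplexConjugate

namespace Pool.Agent.Y23.G.GQ

variable [L : LFun]

theorem up {w0 : ℂ} (h0 : L.X (1 / 2 + w0) = 0) (hre : 0 < w0.re) {c : ℝ} (hc : c < 2 * w0.re) :
    ∃ A : ℝ, ∀ a : ℝ, A ≤ a → ∃ f : ℝ → ℂ, Hd a f ∧ QQ f < -(Real.exp (c * a) * LL f) := by
  obtain ⟨H, hH⟩ := exists_HF h0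
  have hρ0 : (1 / 2 + w0) ∈ (zd (L := L)).Zs := h0
  set ρ0 : Zt := ⟨1 / 2 + w0, hρ0⟩ with hρ0d
  have hct : ct ρ0 = w0 := by
    show (1 / 2 + w0) - 1 / 2 = w0
    ring
  have hstrip : w0.re ≤ 1 := by
    have := (le_abs_self _).trans (half_re ρ0)
    have e : ((ρ0 : ℂ) - 1 / 2) = w0 := hct
    rwa [e] at this
  set δ := w0.re with hδ
  set c1 := max c 0 with hc1
  have hc10 : 0 ≤ c1 := le_max_right _ _
  have hc1δ : c1 < 2 * δ := max_lt hc (by linarith)
  set c2 := (c1 + 2 * δ) / 2 with hc2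
  have h12 : c1 < c2 := by rw [hc2]; linarith
  have h2δ : c2 < 2 * δ := by rw [hc2]; linarith
  have hc20 : 0 ≤ c2 := by linarith
  set κ := (2 * δ - c2) / 2 with hκ
  have hκ0 : 0 < κ := by rw [hκ]; linarith
  set K := 2 * δ / κ + 1 with hK
  have hK1 : 1 < K := by
    have : 0 < 2 * δ / κ := by positivity
    linarith
  have hKδ : δ < K := by linarith
  have hK0 : 0 < K := by linarith
  set t := δ / K with ht
  have ht0 : 0 < t := by positivity
  have ht1 : t < 1 := (div_lt_one hK0).2 hKδ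
  have htκ : 2 * t ≤ κ := by
    rw [ht, mul_div_assoc', div_le_iff₀ hK0, hK, mul_add, mul_one, mul_div_cancel₀ _ hκ0.ne']
    linarith
  have htK : t * K = δ := by rw [ht, div_mul_cancel₀ _ hK0.ne']
  obtain ⟨C1, hC1, hq⟩ := qr_bound hH (K + 1)
  obtain ⟨C2, hC2, hb⟩ := hH.bdd (K + 1)
  set C := max C1 C2 with hCd
  have hC : 0 ≤ C := hC1.trans (le_max_left _ _)
  set M0 := |QQ φ| + 2 * LL φ with hM0
  have hM00 : 0 ≤ M0 := by
    have := LL_nonneg φ
    positivity
  have hG1 : 0 ≤ G1 (L := L) := G1_nonneg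
  set D1 := C * (G1 + 2 * (M0 / (c2 - c1))) with hD1
  set D2 := G1 (L := L) * C * Real.exp (4 * (K - 1)) with hD2
  set D := max (max D1 D2) 1 with hD
  have hDp : 1 ≤ D := le_max_right _ _
  have hD1' : D1 ≤ D := (le_max_left _ _).trans (le_max_left _ _)
  have hD2' : D2 ≤ D := (le_max_right _ _).trans (le_max_left _ _)
  set V := ‖gw ρ0 * deriv H w0‖ with hV
  have hV0 : 0 < V := by
    rw [hV, norm_pos_iff]
    refine mul_ne_zero (gw_ne ?_) hH.der
    have e : ((ρ0 : ℂ) - 1 / 2) = w0 := hct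
    rw [e]
    exact hre.ne'
  -- the size of `a`
  have hlim : Tendsto (fun a : ℝ => D * Real.exp (-(κ * a))) atTop (𝓝 0) := by
    have h1 : Tendsto (fun a : ℝ => κ * a) atTop atTop := tendsto_id.const_mul_atTop hκ0
    have h2 := (Real.tendsto_exp_neg_atTop_nhds_zero.comp h1).const_mul D
    simpa [Function.comp_def] using h2
  obtain ⟨A0, hA0⟩ := eventually_atTop.1 (hlim.eventually (gt_mem_nhds hV0))
  refine ⟨max A0 2, fun a ha => ?_⟩
  have haA : A0 ≤ a := (le_max_left _ _).trans ha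
  have ha2 : 2 ≤ a := (le_max_right _ _).trans ha
  by_contra hcon
  push Not at hcon
  have hE : ∀ f : ℝ → ℂ, Hd a f → -(Real.exp (c1 * a) * LL f) ≤ QQ f := by
    intro f hf
    have h1 := hcon f hf
    have h2 : Real.exp (c * a) * LL f ≤ Real.exp (c1 * a) * LL f := by
      refine mul_le_mul_of_nonneg_right (Real.exp_le_exp.2 ?_) (LL_nonneg f)
      exact mul_le_mul_of_nonneg_right (le_max_left _ _) (by linarith)
    linarith
  set B := a - 2 with hB
  have hB0 : 0 ≤ B := by linarith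
  set M := |QQ φ| + 2 * Real.exp (c1 * a) * LL φ with hM
  have hMb : M ≤ M0 * Real.exp (c1 * a) := by
    have h1 : 1 ≤ Real.exp (c1 * a) := Real.one_le_exp (by positivity)
    have h2 := abs_nonneg (QQ φ)
    rw [hM, hM0]
    nlinarith
  have hM0' : 0 ≤ M := by
    have := LL_nonneg φ
    positivity
  have hSB : ∀ b : ℝ, 0 ≤ b → b ≤ B → ‖SB b‖ ≤ M := fun b hb0 hbB =>
    SB_bound hE (Real.exp_nonneg _) hb0 (by linarith)
  have hqC : ∀ (z : ℂ), |z.re| ≤ K + 1 → ∀ ρ, ‖qr H ρ z‖ ≤ C := fun z hz ρ => (hq ρ z hz).trans (le_max_left _ _)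
  have hd : DifferentiableOn ℂ (JB H B) {z | |z.re| < K + 1} := JB_diff hH hB0 (K + 1)
  have hsub : ∀ z : ℂ, 0 ≤ z.re → z.re ≤ K → |z.re| < K + 1 := fun z h1 h2 => by
    rw [abs_of_nonneg h1]; linarith
  have hdc : DiffContOnCl ℂ (JB H B) (Complex.HadamardThreeLines.verticalStrip 0 K) := by
    refine DifferentiableOn.diffContOnCl (hd.mono ?_)
    intro z hz
    have h1 : closure (Complex.HadamardThreeLines.verticalStrip 0 K) ⊆ re ⁻¹' Icc 0 K := by
      refine closure_minimal ?_ (isClosed_Icc.preimage Complex.continuous_re)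
      intro v hv
      exact ⟨hv.1.le, hv.2.le⟩
    have h2 := h1 hz
    exact hsub z h2.1 h2.2
  have hbdd : BddAbove ((norm ∘ JB H B) '' Complex.HadamardThreeLines.verticalClosedStrip 0 K) := by
    refine ⟨G1 * (C * Real.exp (2 * B * 1)), ?_⟩
    rintro _ ⟨z, hz, rfl⟩
    have hz1 : 0 ≤ z.re := hz.1
    have hz2 : z.re ≤ K := hz.2
    refine (JB_le hB0 (hqC z (hsub z hz1 hz2).le) hC).trans ?_
    refine mul_le_mul_of_nonneg_left (mul_le_mul_of_nonneg_left (Real.exp_le_exp.2 ?_) hC) hG1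
    exact mul_le_mul_of_nonneg_left (by linarith) (by positivity)
  have hl : ∀ z ∈ re ⁻¹' ({0} : Set ℝ), ‖JB H B z‖ ≤ D * Real.exp (c2 * a) := by
    intro z hz
    have hz0 : z.re = 0 := hz
    have h1 := JB_line hH hB0 hC hz0 (hqC z (by rw [hz0, abs_zero]; linarith))
      ((hb z (by rw [hz0, abs_zero]; linarith)).trans (le_max_right _ _)) hSB
    refine h1.trans ?_
    have h2 : B * M ≤ M0 / (c2 - c1) * Real.exp (c2 * a) := by
      have h3 : B * M ≤ a * (M0 * Real.exp (c1 * a)) :=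
        mul_le_mul (by linarith) hMb hM0' (by linarith)
      have h4 : (c2 - c1) * a ≤ Real.exp ((c2 - c1) * a) := by
        have := Real.add_one_le_exp ((c2 - c1) * a)
        linarith
      have h5 : a ≤ Real.exp ((c2 - c1) * a) / (c2 - c1) := by
        rw [le_div_iff₀ (by linarith)]
        linarith
      have h6 : Real.exp ((c2 - c1) * a) * Real.exp (c1 * a) = Real.exp (c2 * a) := by
        rw [← Real.exp_add]; ring_nf
      calc B * M ≤ a * (M0 * Real.exp (c1 * a)) := h3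
        _ ≤ (Real.exp ((c2 - c1) * a) / (c2 - c1)) * (M0 * Real.exp (c1 * a)) :=
            mul_le_mul_of_nonneg_right h5 (by positivity)
        _ = M0 / (c2 - c1) * (Real.exp ((c2 - c1) * a) * Real.exp (c1 * a)) := by ring
        _ = _ := by rw [h6]
    have h7 : 1 ≤ Real.exp (c2 * a) := Real.one_le_exp (by positivity)
    have h8 : G1 + 2 * (B * M) ≤ (G1 + 2 * (M0 / (c2 - c1))) * Real.exp (c2 * a) := by
      nlinarith
    calc C * (G1 + 2 * (B * M)) ≤ C * ((G1 + 2 * (M0 / (c2 - c1))) * Real.exp (c2 * a)) :=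
          mul_le_mul_of_nonneg_left h8 hC
      _ = D1 * Real.exp (c2 * a) := by rw [hD1]; ring
      _ ≤ _ := mul_le_mul_of_nonneg_right hD1' (Real.exp_nonneg _)
  have hr : ∀ z ∈ re ⁻¹' ({K} : Set ℝ), ‖JB H B z‖ ≤ D * Real.exp (-(2 * (K - 1)) * a) := by
    intro z hz
    have hzK : z.re = K := hz
    have h1 := JB_le hB0 (hqC z (by rw [hzK, abs_of_pos hK0]; linarith)) hC
    refine h1.trans ?_
    rw [hzK]
    have h2 : Real.exp (2 * B * (1 - K)) = Real.exp (4 * (K - 1)) * Real.exp (-(2 * (K - 1)) * a) := by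
      rw [← Real.exp_add]
      congr 1
      rw [hB]
      ring
    rw [h2]
    calc _ = D2 * Real.exp (-(2 * (K - 1)) * a) := by rw [hD2]; ring
      _ ≤ _ := mul_le_mul_of_nonneg_right hD2' (Real.exp_nonneg _)
  have hmain := Complex.HadamardThreeLines.norm_le_interp_of_mem_verticalClosedStrip' hK0
    (z := w0) ⟨hre.le, hKδ.le⟩ hdc hbdd hl hr
  rw [JB_zero hH B hct, sub_zero, sub_zero] at hmain
  have hD0 : 0 < D := by linarith
  have e1 : (D * Real.exp (c2 * a)) ^ (1 - w0.re / K) * (D * Real.exp (-(2 * (K - 1)) * a)) ^ (w0.re / K) =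
      D * Real.exp ((c2 * (1 - t) - 2 * (K - 1) * t) * a) := by
    rw [← hδ, ← ht, Real.mul_rpow hD0.le (Real.exp_nonneg _), Real.mul_rpow hD0.le (Real.exp_nonneg _),
      ← Real.exp_mul, ← Real.exp_mul]
    have h1 : D ^ (1 - t) * D ^ t = D := by
      rw [← Real.rpow_add hD0, sub_add_cancel, Real.rpow_one]
    calc _ = (D ^ (1 - t) * D ^ t) * (Real.exp (c2 * a * (1 - t)) * Real.exp (-(2 * (K - 1)) * a * t)) := by ring
      _ = _ := by
        rw [h1, ← Real.exp_add]
        congr 2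
        ring
  rw [e1] at hmain
  have h9 : c2 * (1 - t) - 2 * (K - 1) * t ≤ -κ := by
    have h10 : 2 * (K - 1) * t = 2 * δ - 2 * t := by rw [← htK]; ring
    have h11 : 0 ≤ c2 * t := by positivity
    have h12 : 2 * κ = 2 * δ - c2 := by rw [hκ]; ring
    rw [h10]
    nlinarith
  have h13 : D * Real.exp ((c2 * (1 - t) - 2 * (K - 1) * t) * a) ≤ D * Real.exp (-(κ * a)) := by
    refine mul_le_mul_of_nonneg_left (Real.exp_le_exp.2 ?_) hD0.le
    have := mul_le_mul_of_nonneg_right h9 (by linarith : 0 ≤ a)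
    linarith
  have h14 := hA0 a haA
  have h15 : V ≤ D * Real.exp (-(κ * a)) := hmain.trans h13
  exact absurd h14 (not_lt.2 h15)

end Pool.Agent.Y23.G.GQ
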